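import Mathlib
import Pool.Agent.Y178.NG.Defs
import Pool.Agent.Y178.NG.Asym
import Pool.Agent.Y178.NG.Sanity

set_option autoImplicit false

/-!
# The normality conjecture for asymptotic Betti numbers fails in every dimension `n ≥ 4`

For `X = ℙ^m × ℙ¹` with `m ≥ 3` (dimension `n = m + 1`), `A = 𝒪(1,1)`, `P = 𝒪`, so
`L_d = 𝒪(d,d)`, and `q = n`, no function `F(d)` rescales the Betti numbers `k_{p,n}(X; L_d)` to the
Gaussian shape. If `m ≥ 4`, then no function `F(d)` rescales them to any positive shape at all: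
inside the window `|2 p - r_d| ≤ C √r_d` the Betti numbers decay faster than by any constant factor.

The library `Pool.Agent.Y178.NG` is the library `Pool.Agent.H940R2` (the case `m = 3`) with an
arbitrary number `nx` of coordinates on the first factor, and with new asymptotic estimates.
-/

namespace Pool.Agent.Results.MP_7b2bd6_ag.EveryDimension

open Filter Topology Pool.Agent.Y178.NG

/-- There are `m + 1` homogeneous coordinates on `ℙ^m`. -/
@[reducible] def coords (m : ℕ) : NX := ⟨m + 1, m.succ_pos⟩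

/-- `k_{p,q}(ℙ^m × ℙ¹; 𝒪(d,d))`, the dimension of the Koszul cohomology group. -/
noncomputable def betti (m d p : ℕ) (q : ℤ) : ℕ := @kpq (coords m) d p q

/-- `r_d = h⁰(ℙ^m × ℙ¹, 𝒪(d,d)) - 1`. -/
noncomputable def rd (m d : ℕ) : ℝ := @rr (coords m) d

section

variable [NX]

lemma tendsto_rr : Tendsto (fun d => Real.sqrt (rr d)) atTop atTop := by
  refine Real.tendsto_sqrt_atTop.comp ?_
  refine tendsto_atTop_mono (fun d => ?_) tendsto_natCast_atTop_atTop
  have h : ((d + 1 : ℕ) : ℝ) ≤ h0 d := by exact_mod_cast h0_ge d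
  push_cast at h
  rw [rr]
  linarith

/-- the middle exterior degree on the dual side -/
noncomputable def mid (d : ℕ) : ℕ := h0 d / 2

/-- what is needed about large `d` -/
def Big (d : ℕ) : Prop := nx ≤ d ∧ 2 ≤ d ∧ 2500 ≤ h0 d ∧ 8 * (nx + 1) ≤ h0 d

lemma big_ev : ∀ᶠ d : ℕ in atTop, Big d := by
  filter_upwards [eventually_ge_atTop (2500 + 8 * (nx + 1))] with d hd
  have := h0_ge d
  refine ⟨by omega, by omega, by omega, by omega⟩

lemma Big.real {d : ℕ} (hd : Big d) : (2500 : ℝ) ≤ h0 d := by exact_mod_cast hd.2.2.1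

lemma room {d : ℕ} (hd : Big d) : mid d + ss d + (nx + 1) ≤ h0 d := by
  obtain ⟨-, -, h1, h8⟩ := hd
  have h1' : (2500 : ℝ) ≤ h0 d := by exact_mod_cast h1
  have h2 : (ss d : ℝ) ≤ Real.sqrt (rr d) := Nat.floor_le (Real.sqrt_nonneg _)
  have h3 : (ss d : ℝ) ^ 2 ≤ rr d := by
    have h4 : 0 ≤ rr d := by rw [rr]; linarith
    calc (ss d : ℝ) ^ 2 ≤ Real.sqrt (rr d) ^ 2 := by
          exact pow_le_pow_left₀ (Nat.cast_nonneg _) h2 2
      _ = rr d := Real.sq_sqrt h4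
  have h4 : (ss d : ℝ) ^ 2 ≤ h0 d := by
    rw [rr] at h3
    linarith
  have h5 : ss d ^ 2 ≤ h0 d := by exact_mod_cast h4
  rw [mid]
  by_cases h6 : ss d ≤ 7
  · omega
  · have h7 : 7 * ss d ≤ ss d ^ 2 := by
      rw [sq]
      exact Nat.mul_le_mul_right _ (by omega)
    omega

lemma k0 {d : ℕ} (hd : Big d) :
    (kpq d (h0 d - (nx + 1) - mid d) nx : ℝ) = kap d (mid d) := by
  have h := room hd
  have h2 := hd.2.1
  rw [kpq_eq_KK (p' := mid d) (by omega) (by omega), kap]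

lemma k1 {d : ℕ} (hd : Big d) :
    (kpq d (h0 d - (nx + 1) - mid d - ss d) nx : ℝ) = kap d (mid d + ss d) := by
  have h := room hd
  have h2 := hd.2.1
  rw [kpq_eq_KK (p' := mid d + ss d) (by omega) (by omega), kap]

lemma decay {d : ℕ} (hd : Big d) {M : ℝ} (hM : M * (h0 d : ℝ) ≤ mu d * ss d) :
    kap d (mid d + ss d) ≤ Real.exp (-M) * kap d (mid d) := by
  have h1 := hd.real
  have hD : (0 : ℝ) < h0 d := by linarith
  have h2 : (h0 d : ℝ) - 1 ≤ 2 * (mid d : ℕ) := by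
    have : h0 d ≤ 2 * mid d + 1 := by rw [mid]; omega
    have : (h0 d : ℝ) ≤ 2 * mid d + 1 := by exact_mod_cast this
    linarith
  have h3 := iter hd.1 hd.2.1 h2 (ss d)
  refine h3.trans (mul_le_mul_of_nonneg_right ?_ (kap_nonneg _ _))
  have h4 : 1 - mu d / h0 d ≤ Real.exp (-(mu d / h0 d)) := by
    have := Real.add_one_le_exp (-(mu d / h0 d))
    linarith
  have h5 : 0 ≤ 1 - mu d / h0 d := by
    rw [sub_nonneg, div_le_one hD]
    exact mu_le hd.2.1
  calc (1 - mu d / h0 d) ^ ss d ≤ Real.exp (-(mu d / h0 d)) ^ ss d :=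
        pow_le_pow_left₀ h5 h4 _
    _ = Real.exp (ss d * (-(mu d / h0 d))) := by rw [← Real.exp_nat_mul]
    _ ≤ Real.exp (-M) := by
        apply Real.exp_le_exp.mpr
        have h7 : M ≤ (mu d * ss d) / h0 d := by
          rw [le_div_iff₀ hD]
          exact hM
        have h8 : (ss d : ℝ) * (-(mu d / h0 d)) = -((mu d * ss d) / h0 d) := by ring
        rw [h8]
        linarith

lemma lim0 : Tendsto (fun d => (2 * ((h0 d - (nx + 1) - mid d : ℕ) : ℝ) - rr d) /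
    Real.sqrt (rr d)) atTop (𝓝 0) := by
  have h9 : Tendsto (fun d => (2 * (nx : ℝ) + 4) / Real.sqrt (rr d)) atTop (𝓝 0) :=
    tendsto_rr.const_div_atTop _
  apply squeeze_zero_norm' _ h9
  filter_upwards [big_ev] with d hd
  have h := room hd
  have hpos : 0 ≤ Real.sqrt (rr d) := Real.sqrt_nonneg _
  rw [Real.norm_eq_abs, abs_div, abs_of_nonneg hpos]
  apply div_le_div_of_nonneg_right _ hpos
  have h1 : (((h0 d - (nx + 1) - mid d : ℕ) : ℝ)) = h0 d - (nx + 1) - mid d := by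
    rw [Nat.cast_sub (by omega), Nat.cast_sub (by omega)]
    push_cast
    ring
  rw [h1, rr, abs_le]
  have h2 : (h0 d : ℝ) ≤ 2 * mid d + 1 := by
    have : h0 d ≤ 2 * mid d + 1 := by rw [mid]; omega
    exact_mod_cast this
  have h3 : 2 * (mid d : ℝ) ≤ h0 d := by
    have : 2 * mid d ≤ h0 d := by rw [mid]; omega
    exact_mod_cast this
  have h4 : (0 : ℝ) ≤ nx := Nat.cast_nonneg _
  constructor <;> linarith

lemma lim1 : Tendsto (fun d => (2 * ((h0 d - (nx + 1) - mid d - ss d : ℕ) : ℝ) - rr d) /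
    Real.sqrt (rr d)) atTop (𝓝 (-2)) := by
  have h1 : Tendsto (fun d => (ss d : ℝ) / Real.sqrt (rr d)) atTop (𝓝 1) :=
    (tendsto_nat_floor_div_atTop (R := ℝ)).comp tendsto_rr
  have h2 := lim0.sub (h1.const_mul 2)
  have h3 : (0 : ℝ) - 2 * 1 = -2 := by norm_num
  rw [h3] at h2
  refine h2.congr' ?_
  filter_upwards [big_ev] with d hd
  have h := room hd
  have h4 : (((h0 d - (nx + 1) - mid d - ss d : ℕ) : ℝ)) =
      ((h0 d - (nx + 1) - mid d : ℕ) : ℝ) - ss d := by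
    rw [Nat.cast_sub (by omega)]
  rw [h4]
  ring

/-- If `F(d) k_{p_d} → g(a)` for all sequences, then `g(-2) ≤ e^{-M} g(0)` as soon as
`M h⁰ ≤ μ s` for large `d`. -/
lemma shape {g : ℝ → ℝ} (hg : 0 < g 0) {M : ℝ}
    (hM : ∀ᶠ d : ℕ in atTop, M * (h0 d : ℝ) ≤ mu d * ss d) {F : ℕ → ℝ}
    (hF : ∀ (a : ℝ) (p : ℕ → ℕ),
      Tendsto (fun d => (2 * (p d : ℝ) - rr d) / Real.sqrt (rr d)) atTop (𝓝 a) →
      Tendsto (fun d => F d * (kpq d (p d) nx : ℝ)) atTop (𝓝 (g a))) :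
    g (-2) ≤ Real.exp (-M) * g 0 := by
  have h0' := hF 0 _ lim0
  have h1' := hF (-2) _ lim1
  have h0'' := h0'.const_mul (Real.exp (-M))
  have hpos : ∀ᶠ d in atTop, (0 : ℝ) < F d * (kpq d (h0 d - (nx + 1) - mid d) nx : ℝ) :=
    h0'.eventually (lt_mem_nhds hg)
  refine le_of_tendsto_of_tendsto h1' h0'' ?_
  filter_upwards [hpos, big_ev, hM] with d h1 hd hMd
  rw [k0 hd] at h1 ⊢
  rw [k1 hd]
  have hFpos : 0 ≤ F d := by
    by_contra hneg
    push Not at hneg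
    have := mul_nonpos_of_nonpos_of_nonneg hneg.le (kap_nonneg d (mid d))
    linarith
  calc F d * kap d (mid d + ss d) ≤ F d * (Real.exp (-M) * kap d (mid d)) :=
        mul_le_mul_of_nonneg_left (decay hd hMd) hFpos
    _ = _ := by ring

lemma gauss {j : ℕ} (hj : nx = j + 4) : ¬ ∃ F : ℕ → ℝ, ∀ (a : ℝ) (p : ℕ → ℕ),
    Tendsto (fun d => (2 * (p d : ℝ) - rr d) / Real.sqrt (rr d)) atTop (𝓝 a) →
    Tendsto (fun d => F d * (kpq d (p d) nx : ℝ)) atTop (𝓝 (Real.exp (-a ^ 2 / 2))) := by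
  rintro ⟨F, hF⟩
  have hM : ∀ᶠ d : ℕ in atTop, 3 * (h0 d : ℝ) ≤ mu d * ss d := by
    filter_upwards [big_ev, ten_le hj] with d hd h10
    exact three_le hd.real h10
  have h := shape (g := fun a => Real.exp (-a ^ 2 / 2)) (Real.exp_pos _) hM hF
  have e0 : Real.exp (-(0 : ℝ) ^ 2 / 2) = 1 := by simp
  have e1 : Real.exp (-(-2 : ℝ) ^ 2 / 2) = Real.exp (-2) := by norm_num
  simp only [e0, e1, mul_one] at h
  have := Real.exp_le_exp.mp h
  norm_num at this

lemma noShape {j : ℕ} (hj : nx = j + 4) (hj1 : 1 ≤ j) {g : ℝ → ℝ} (hg : ∀ a, 0 < g a) :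
    ¬ ∃ F : ℕ → ℝ, ∀ (a : ℝ) (p : ℕ → ℕ),
    Tendsto (fun d => (2 * (p d : ℝ) - rr d) / Real.sqrt (rr d)) atTop (𝓝 a) →
    Tendsto (fun d => F d * (kpq d (p d) nx : ℝ)) atTop (𝓝 (g a)) := by
  rintro ⟨F, hF⟩
  have hM : ∀ M : ℝ, 0 ≤ M → g (-2) ≤ Real.exp (-M) * g 0 := by
    intro M hM0
    refine shape (hg 0) ?_ hF
    filter_upwards [big_ev, any_le hj hj1 ((2 * M) ^ 2) (by positivity)] with d hd h1
    exact any_mul_le hM0 hd.real h1
  have hlim : Tendsto (fun M : ℝ => Real.exp (-M) * g 0) atTop (𝓝 (0 * g 0)) :=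
    (Real.tendsto_exp_neg_atTop_nhds_zero).mul_const _
  rw [zero_mul] at hlim
  have h := ge_of_tendsto hlim ((eventually_ge_atTop 0).mono hM)
  exact absurd (hg (-2)) (not_lt.2 h)

end

/-- **Disproof of the normality conjecture in every dimension `n = m + 1 ≥ 4`.**
(1) For every `m ≥ 3` there is no function `F` with
`F(d) k_{p_d,m+1}(ℙ^m × ℙ¹; 𝒪(d,d)) → e^{-a²/2}` for every real `a` and every sequence `(p_d)` with
`(2 p_d - r_d)/√r_d → a`.
(2) For every `m ≥ 4` the same holds with an arbitrary positive function `g(a)` in place of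
`e^{-a²/2}`. -/
theorem result :
    (∀ m : ℕ, 3 ≤ m → ¬ ∃ F : ℕ → ℝ, ∀ (a : ℝ) (p : ℕ → ℕ),
      Tendsto (fun d => (2 * (p d : ℝ) - rd m d) / Real.sqrt (rd m d)) atTop (𝓝 a) →
      Tendsto (fun d => F d * (betti m d (p d) (m + 1) : ℝ)) atTop
        (𝓝 (Real.exp (-a ^ 2 / 2)))) ∧
    (∀ m : ℕ, 4 ≤ m → ∀ g : ℝ → ℝ, (∀ a, 0 < g a) → ¬ ∃ F : ℕ → ℝ, ∀ (a : ℝ) (p : ℕ → ℕ),
      Tendsto (fun d => (2 * (p d : ℝ) - rd m d) / Real.sqrt (rd m d)) atTop (𝓝 a) →
      Tendsto (fun d => F d * (betti m d (p d) (m + 1) : ℝ)) atTop (𝓝 (g a))) := by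
  have e : ∀ m : ℕ, (((@nx (coords m) : ℕ)) : ℤ) = (m : ℤ) + 1 := by
    intro m
    show (((m + 1 : ℕ)) : ℤ) = (m : ℤ) + 1
    push_cast
    ring
  constructor
  · intro m hm
    have hj : @nx (coords m) = (m - 3) + 4 := by
      show m + 1 = (m - 3) + 4
      omega
    have h := @gauss (coords m) (m - 3) hj
    rw [e m] at h
    exact h
  · intro m hm g hg
    have hj : @nx (coords m) = (m - 3) + 4 := by
      show m + 1 = (m - 3) + 4
      omega
    have h := @noShape (coords m) (m - 3) hj (by omega) g hg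
    rw [e m] at h
    exact h

end Pool.Agent.Results.MP_7b2bd6_ag.EveryDimension
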